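import Pool.Agent.W516.KU.Defs
import Pool.Agent.W358.DK.PF

/-! KU-PF: the Perron-Frobenius statement with a condition on symmetric forms only. -/

set_option autoImplicit false
set_option linter.unusedSectionVars false

namespace Pool.Agent.W108.KU

open Module Matrix Set
open Pool.Agent.W358.DK

section mat

variable {m : Type} [Fintype m] [DecidableEq m] {ι : Type} [Fintype ι] (X : ι → Matrix m m ℝ)

/-- the matrix version -/
theorem pf_mat' {B : Matrix m m ℝ} {s : ℝ} (hBs : Bᵀ = B) (hB : Ph X B = s • B)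
    (huniq : ∀ (M : Matrix m m ℝ) (θ : ℝ), Mᵀ = M → s ≤ θ → Ph X M = θ • M → ∃ c : ℝ, M = c • B) :
    (∀ v, 0 ≤ q B v) ∨ ∀ v, q B v ≤ 0 := by
  by_cases hB0 : B = 0
  · left
    intro v
    rw [hB0]
    unfold q
    simp
  have hnem : Nonempty m := by
    by_contra h
    apply hB0
    ext i
    exact absurd ⟨i⟩ h
  obtain ⟨Bd, hBd⟩ := tr_bound X
  set B' := Bd + Fintype.card m with hB'
  set Z : Set (ℝ × ℝ × Matrix m m ℝ) := (Icc 0 1 ×ˢ (Icc (min s 0) B' ×ˢ Cs m)) ∩
    {p | Pe X p.1 p.2.2 = p.2.1 • p.2.2 ∧ s ≤ p.2.1} with hZ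
  have hZc : IsCompact Z := by
    refine (isCompact_Icc.prod (isCompact_Icc.prod compact_Cs)).inter_right ?_
    refine (isClosed_eq ?_ ?_).inter (isClosed_le continuous_const
      (continuous_fst.comp continuous_snd))
    · unfold Pe
      refine ((cont_Ph X).comp (continuous_snd.comp continuous_snd)).add ?_
      exact (continuous_fst.mul (cont_tr.comp (continuous_snd.comp continuous_snd))).smul
        continuous_const
    · fun_prop
  have hcl : IsClosed (Prod.fst '' Z) := (hZc.image continuous_fst).isClosed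
  have hsub : Ioc (0 : ℝ) 1 ⊆ Prod.fst '' Z := by
    intro ε hε
    obtain ⟨θ, hθ, M, hM, hPM⟩ := perron X hε.1
    have hsθ := perron_ge X hε.1 hθ hM hPM hBs hB0 hB
    have hθB : θ ≤ B' := by
      have h1 := congrArg Matrix.trace hPM
      rw [tr_Pe, trace_smul, hM.2, smul_eq_mul, mul_one, mul_one] at h1
      have h2 := hBd M hM
      have h3 : ε * (Fintype.card m : ℝ) ≤ Fintype.card m := by
        have : (0 : ℝ) ≤ Fintype.card m := Nat.cast_nonneg _
        nlinarith [hε.2]
      rw [hB', ← h1]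
      linarith
    exact ⟨(ε, θ, M), ⟨⟨⟨hε.1.le, hε.2⟩, ⟨⟨(min_le_right _ _).trans hθ, hθB⟩, hM⟩⟩, hPM, hsθ⟩, rfl⟩
  have h0 : (0 : ℝ) ∈ Prod.fst '' Z := by
    have h1 : (0 : ℝ) ∈ closure (Ioc (0 : ℝ) 1) := by
      rw [closure_Ioc (by norm_num)]
      exact ⟨le_rfl, zero_le_one⟩
    exact hcl.closure_subset_iff.2 hsub h1
  obtain ⟨⟨ε, θ, M⟩, ⟨⟨-, -, hM⟩, hPM, hsθ⟩, hε⟩ := h0
  simp only at hε hPM hsθ hM
  subst hε
  have hPh : Ph X M = θ • M := by
    rw [← hPM]
    unfold Pe
    simp
  obtain ⟨c, hc⟩ := huniq M θ hM.1.1 hsθ hPh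
  have hc0 : c ≠ 0 := by
    rintro rfl
    rw [zero_smul] at hc
    have := hM.2
    rw [hc] at this
    simp at this
  have hq : ∀ v, q M v = c * q B v := fun v => by rw [hc, q_smul]
  rcases lt_or_gt_of_ne hc0 with h | h
  · right
    intro v
    have := hM.1.2 v
    rw [hq] at this
    nlinarith
  · left
    intro v
    have := hM.1.2 v
    rw [hq] at this
    nlinarith

end mat

theorem T_PF : Pool.Agent.W516.KU.S_PF := by
  intro T _ _ _ b hb ι _ x Φ hΦ s κ hs _ _ huniq
  set β := finBasis ℝ T with hβ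
  set L : (T →ₗ[ℝ] T →ₗ[ℝ] ℝ) ≃ₗ[ℝ] Matrix (Fin (finrank ℝ T)) (Fin (finrank ℝ T)) ℝ :=
    LinearMap.toMatrix₂ β β with hL
  set X : ι → Matrix (Fin (finrank ℝ T)) (Fin (finrank ℝ T)) ℝ :=
    fun i => LinearMap.toMatrix β β (x i) with hX
  have hΦm : ∀ g : T →ₗ[ℝ] T →ₗ[ℝ] ℝ, L (Φ g) = Ph X (L g) := by
    intro g
    have h1 : Φ g = ∑ i, g.compl₁₂ (x i) (x i) := by
      ext u v
      rw [hΦ]
      simp
    rw [h1, map_sum]
    unfold Ph
    refine Finset.sum_congr rfl fun i _ => ?_
    ext u v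
    simp only [hL, hX, LinearMap.toMatrix₂_apply, Matrix.mul_apply, transpose_apply,
      LinearMap.toMatrix_apply, LinearMap.compl₁₂_apply]
    have h1 : ∀ w, x i (β w) = ∑ k, β.repr (x i (β w)) k • β k := fun w => (β.sum_repr _).symm
    conv_lhs => rw [h1 u, h1 v]
    simp only [map_sum, LinearMap.sum_apply, map_smul, LinearMap.smul_apply, smul_eq_mul,
      Finset.sum_mul, Finset.mul_sum]
    refine Finset.sum_congr rfl fun k _ => Finset.sum_congr rfl fun l _ => ?_
    ring
  have hBs : (L b)ᵀ = L b := by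
    ext i j
    rw [transpose_apply, hL, LinearMap.toMatrix₂_apply, LinearMap.toMatrix₂_apply, hb]
  have hB : Ph X (L b) = s • L b := by
    rw [← hΦm, hs, map_smul]
  have hu : ∀ (M : Matrix (Fin (finrank ℝ T)) (Fin (finrank ℝ T)) ℝ) (θ : ℝ),
      Mᵀ = M → s ≤ θ → Ph X M = θ • M → ∃ c : ℝ, M = c • L b := by
    intro M θ hMs hθ hM
    have hsy : ∀ u v : T, L.symm M u v = L.symm M v u := by
      have h1 : L.symm M = (L.symm M).flip := by
        apply β.ext
        intro i
        apply β.ext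
        intro j
        have h2 : ∀ i j, L.symm M (β i) (β j) = M i j := by
          intro i j
          have h3 := congrFun (congrFun (L.apply_symm_apply M) i) j
          rw [hL, LinearMap.toMatrix₂_apply] at h3
          exact h3
        rw [LinearMap.flip_apply, h2, h2]
        have h4 := congrFun (congrFun hMs i) j
        rw [transpose_apply] at h4
        exact h4.symm
      intro u v
      conv_lhs => rw [h1]
      rw [LinearMap.flip_apply]
    obtain ⟨c, hc⟩ := huniq (L.symm M) θ hsy hθ (by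
      apply L.injective
      rw [hΦm, LinearEquiv.apply_symm_apply, hM, map_smul, LinearEquiv.apply_symm_apply])
    refine ⟨c, ?_⟩
    rw [← map_smul, ← hc, LinearEquiv.apply_symm_apply]
  have hq : ∀ v : T, b v v = q (L b) (β.repr v) := by
    intro v
    have h1 := β.sum_repr v
    rw [q_eq]
    conv_lhs => rw [← h1]
    simp only [map_sum, LinearMap.sum_apply, map_smul, LinearMap.smul_apply, smul_eq_mul,
      hL, LinearMap.toMatrix₂_apply]
    rw [Finset.sum_comm]
    refine Finset.sum_congr rfl fun i _ => ?_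
    rw [Finset.mul_sum]
    refine Finset.sum_congr rfl fun j _ => ?_
    ring
  rcases pf_mat' X hBs hB hu with h | h
  · left
    intro v
    rw [hq]
    exact h _
  · right
    intro v
    rw [hq]
    exact h _

end Pool.Agent.W108.KU
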